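import Pool.Agent.D0H15.SK.Stm
import Pool.Agent.D0H87.SF.GM
import Pool.Agent.D0H87.SF.PAK

/-! Project SFK (helper15), module GM (helper65): short polynomials. -/

set_option autoImplicit false

open Polynomial NumberField

namespace Pool.Agent.D0H65.SFK.GM

open Pool.Agent.D0H15.SK

variable {K : Type} [Field K] [NumberField K]

/-- an ideal of prime norm `r` is the kernel of a map to `ZMod r` -/
theorem exists_hom (R : Ideal (𝓞 K)) (hR : (Ideal.absNorm R).Prime) :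
    ∃ f : 𝓞 K →+* ZMod (Ideal.absNorm R), ∀ a, f a = 0 ↔ a ∈ R := by
  have hcard : Nat.card (𝓞 K ⧸ R) = Ideal.absNorm R := rfl
  have hfin : Finite (𝓞 K ⧸ R) := Nat.finite_of_card_ne_zero (by rw [hcard]; exact hR.ne_zero)
  have hft : Fintype (𝓞 K ⧸ R) := Fintype.ofFinite _
  have hcard2 : Fintype.card (𝓞 K ⧸ R) = Ideal.absNorm R := by
    rw [← Nat.card_eq_fintype_card, hcard]
  let e := ZMod.ringEquivOfPrime (𝓞 K ⧸ R) hR hcard2
  refine ⟨(e.symm : (𝓞 K ⧸ R) →+* ZMod (Ideal.absNorm R)).comp (Ideal.Quotient.mk R), fun a => ?_⟩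
  rw [RingHom.comp_apply, ← Ideal.Quotient.eq_zero_iff_mem]
  exact map_eq_zero_iff (e.symm : (𝓞 K ⧸ R) →+* ZMod (Ideal.absNorm R)) e.symm.injective

/-- small elements are not in the ideal -/
theorem not_mem_small (R : Ideal (𝓞 K)) (a : 𝓞 K) (ha : a ≠ 0) (B : ℝ) (hB : Ht a B)
    (hlt : B ^ (Module.finrank ℚ K) < (Ideal.absNorm R : ℝ)) : a ∉ R := by
  intro hmem
  have h1 : ((Ideal.absNorm R : ℕ) : ℤ) ∣ Algebra.norm ℤ a := Ideal.absNorm_dvd_norm_of_mem hmem
  have h2 : Algebra.norm ℤ a ≠ 0 := Algebra.norm_ne_zero_iff.mpr ha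
  have h3 : ((Ideal.absNorm R : ℕ) : ℤ) ≤ |Algebra.norm ℤ a| :=
    Int.le_of_dvd (abs_pos.mpr h2) ((dvd_abs _ _).mpr h1)
  have h4 : ((Algebra.norm ℤ a : ℤ) : ℚ) = Algebra.norm ℚ (a : K) := Algebra.coe_norm_int a
  have h5 : ((Algebra.norm ℚ (a : K) : ℚ) : ℂ) = ∏ φ : K →ₐ[ℚ] ℂ, φ (a : K) :=
    Algebra.norm_eq_prod_embeddings ℚ ℂ (a : K)
  have h6 : |((Algebra.norm ℤ a : ℤ) : ℝ)| ≤ B ^ (Module.finrank ℚ K) := by
    have h7 : |((Algebra.norm ℤ a : ℤ) : ℝ)| = ‖((Algebra.norm ℚ (a : K) : ℚ) : ℂ)‖ := by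
      rw [← h4]
      have h8 : ((((Algebra.norm ℤ a : ℤ) : ℚ)) : ℂ) = (((Algebra.norm ℤ a : ℤ) : ℝ) : ℂ) := by
        push_cast
        rfl
      rw [h8, Complex.norm_real, Real.norm_eq_abs]
    rw [h7, h5, norm_prod]
    have h10 : ∀ φ : K →ₐ[ℚ] ℂ, ‖φ (a : K)‖ ≤ B := fun φ => hB (φ : K →+* ℂ)
    refine (Finset.prod_le_prod (fun _ _ => norm_nonneg _) (fun φ _ => h10 φ)).trans (le_of_eq ?_)
    rw [Finset.prod_const, Finset.card_univ, AlgHom.card]
  have h9 : ((Ideal.absNorm R : ℕ) : ℝ) ≤ |((Algebra.norm ℤ a : ℤ) : ℝ)| := by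
    rw [← Int.cast_abs]
    exact_mod_cast h3
  linarith

/-- A polynomial of degree `< k`, nonzero modulo `R`, has at most `k - 1` roots modulo `R`. -/
theorem card_roots_le {k r : ℕ} (hr : r.Prime) (f : 𝓞 K →+* ZMod r) (g : Fin k → 𝓞 K)
    (hg : ∃ j, f (g j) ≠ 0) :
    ((Finset.range r).filter (fun m : ℕ => f (ev g (m : 𝓞 K)) = 0)).card ≤ k - 1 := by
  have : Fact r.Prime := ⟨hr⟩
  set P : (ZMod r)[X] := ∑ j : Fin k, C (f (g j)) * X ^ (j : ℕ) with hP
  have hcoef : ∀ j : Fin k, P.coeff (j : ℕ) = f (g j) := by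
    intro j
    rw [hP, finsetSum_coeff]
    simp only [coeff_C_mul, coeff_X_pow]
    rw [Finset.sum_eq_single j]
    · simp
    · intro b _ hb
      rw [if_neg (fun h => hb (Fin.ext h.symm)), mul_zero]
    · simp
  have hP0 : P ≠ 0 := by
    obtain ⟨j, hj⟩ := hg
    intro h
    apply hj
    rw [← hcoef j, h, coeff_zero]
  have hdeg : P.natDegree ≤ k - 1 := by
    apply natDegree_sum_le_of_forall_le
    intro i _
    refine (natDegree_C_mul_X_pow_le _ _).trans ?_
    have := i.2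
    omega
  have heval : ∀ m : ℕ, P.eval (m : ZMod r) = f (ev g (m : 𝓞 K)) := by
    intro m
    rw [hP, eval_finsetSum, ev, map_sum]
    apply Finset.sum_congr rfl
    intro i _
    simp
  calc ((Finset.range r).filter (fun m : ℕ => f (ev g (m : 𝓞 K)) = 0)).card
      ≤ P.roots.toFinset.card := by
        apply Finset.card_le_card_of_injOn (fun m : ℕ => (m : ZMod r))
        · intro m hm
          rw [Finset.mem_coe, Finset.mem_filter] at hm
          rw [Finset.mem_coe, Multiset.mem_toFinset, mem_roots hP0, IsRoot.def, heval]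
          exact hm.2
        · intro a ha b hb hab
          rw [Finset.mem_coe, Finset.mem_filter, Finset.mem_range] at ha hb
          have h1 := (ZMod.natCast_eq_natCast_iff' a b r).1 hab
          rwa [Nat.mod_eq_of_lt ha.1, Nat.mod_eq_of_lt hb.1] at h1
    _ ≤ P.roots.card := Multiset.toFinset_card_le _
    _ ≤ P.natDegree := card_roots' P
    _ ≤ k - 1 := hdeg

theorem ev_sub {k : ℕ} (g g' : Fin k → 𝓞 K) (m : 𝓞 K) : ev (g - g') m = ev g m - ev g' m := by
  simp only [ev, Pi.sub_apply, sub_mul, Finset.sum_sub_distrib]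

theorem prod_wR (k n V : ℕ) (h : 2 * k ≤ n) :
    ∏ j : Fin k, (V : ℝ) ^ (n - 2 * (j : ℕ)) = (V : ℝ) ^ (k * (n + 1 - k)) := by
  have := Pool.Agent.D0H87.SF.GM.prod_w k n V h
  exact_mod_cast this

theorem prod_box (k n V d : ℕ) (h : 2 * k ≤ n) (c t : ℝ) :
    ∏ j : Fin k, c * (t * (V : ℝ) ^ (n - 2 * (j : ℕ))) ^ d =
      c ^ k * t ^ (d * k) * (V : ℝ) ^ (d * (k * (n + 1 - k))) := by
  rw [Finset.prod_mul_distrib, Finset.prod_const, Finset.card_univ, Fintype.card_fin,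
    Finset.prod_pow, Finset.prod_mul_distrib, prod_wR k n V h, Finset.prod_const,
    Finset.card_univ, Fintype.card_fin, mul_pow, ← pow_mul, ← pow_mul, mul_comm k d,
    mul_comm (k * (n + 1 - k)) d, mul_assoc (c ^ k)]

open scoped Classical in
/-- The number of bad `m`. -/
theorem bad_count (k n V d : ℕ) (hd : d = Module.finrank ℚ K) (R : Ideal (𝓞 K))
    (hR : (Ideal.absNorm R).Prime) (f : 𝓞 K →+* ZMod (Ideal.absNorm R)) (hf : ∀ a, f a = 0 ↔ a ∈ R)
    (hk : 2 ≤ k) (h : 2 * k ≤ n) (N : ℕ) (hN : 1 ≤ N) (hV : N ≤ V)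
    (hr1 : V ^ (d * (k * (n + 1 - k))) < Ideal.absNorm R) (S : Fin k → Finset (𝓞 K))
    (hS : ∀ (j : Fin k) a, a ∈ S j ↔ Ht a ((1 / N : ℝ) * (V : ℝ) ^ (n - 2 * (j : ℕ))))
    (C : ℝ) (hC : 0 < C) (hCN : 2 * k * C ^ k ≤ N) (hSc : ∀ j : Fin k, ((S j).card : ℝ) ≤
      C * ((1 / N : ℝ) * (V : ℝ) ^ (n - 2 * (j : ℕ))) ^ d) :
    2 * ((Finset.range (Ideal.absNorm R)).filter (fun m : ℕ => ∃ g ∈ Fintype.piFinset S, g ≠ 0 ∧
      f (ev g (m : 𝓞 K)) = 0)).card ≤ Ideal.absNorm R := by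
  classical
  have hd1 : 1 ≤ d := by rw [hd]; exact Module.finrank_pos
  have hVR : (1 : ℝ) ≤ V := by exact_mod_cast (by omega : 1 ≤ V)
  have hNR : (1 : ℝ) ≤ N := by exact_mod_cast hN
  have hr1R : (V : ℝ) ^ (d * (k * (n + 1 - k))) < (Ideal.absNorm R : ℝ) := by exact_mod_cast hr1
  have hsub : (Finset.range (Ideal.absNorm R)).filter (fun m : ℕ => ∃ g ∈ Fintype.piFinset S, g ≠ 0 ∧
      f (ev g (m : 𝓞 K)) = 0) ⊆ ((Fintype.piFinset S).filter (fun g => g ≠ 0)).biUnion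
        (fun g => (Finset.range (Ideal.absNorm R)).filter (fun m : ℕ => f (ev g (m : 𝓞 K)) = 0)) := by
    intro m hm
    rw [Finset.mem_filter] at hm
    obtain ⟨hm1, g, hg, hg0, hgr⟩ := hm
    rw [Finset.mem_biUnion]
    exact ⟨g, Finset.mem_filter.2 ⟨hg, hg0⟩, Finset.mem_filter.2 ⟨hm1, hgr⟩⟩
  have h1 : ((Finset.range (Ideal.absNorm R)).filter (fun m : ℕ => ∃ g ∈ Fintype.piFinset S, g ≠ 0 ∧
      f (ev g (m : 𝓞 K)) = 0)).card ≤ (Fintype.piFinset S).card * (k - 1) := by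
    refine (Finset.card_le_card hsub).trans ?_
    refine (Finset.card_biUnion_le_card_mul _ _ (k - 1) ?_).trans ?_
    · intro g hg
      rw [Finset.mem_filter] at hg
      apply card_roots_le hR
      by_contra hcon
      push Not at hcon
      apply hg.2
      funext j
      have hj := (hS j _).mp ((Fintype.mem_piFinset.1 hg.1) j)
      by_contra hgj
      refine not_mem_small R (g j) hgj _ hj ?_ ((hf _).mp (hcon j))
      refine lt_of_le_of_lt ?_ hr1R
      rw [← hd, pow_mul' (V : ℝ) d, ]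
      refine pow_le_pow_left₀ (by positivity) ?_ _
      have h2 : (V : ℝ) ^ (n - 2 * (j : ℕ)) ≤ (V : ℝ) ^ (k * (n + 1 - k)) := by
        apply pow_le_pow_right₀ hVR
        have := Pool.Agent.D0H87.SF.GM.exp_ge k n hk h
        omega
      have h3 : (1 / N : ℝ) ≤ 1 := by
        rw [div_le_one (by linarith)]
        exact hNR
      have h4 : (0 : ℝ) ≤ (V : ℝ) ^ (n - 2 * (j : ℕ)) := by positivity
      nlinarith
    · exact Nat.mul_le_mul_right _ (Finset.card_filter_le _ _)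
  have h2 : ((Fintype.piFinset S).card : ℝ) ≤
      C ^ k * (1 / N : ℝ) ^ (d * k) * (V : ℝ) ^ (d * (k * (n + 1 - k))) := by
    rw [Fintype.card_piFinset, ← prod_box k n V d h]
    push_cast
    exact Finset.prod_le_prod (fun _ _ => Nat.cast_nonneg _) (fun j _ => hSc j)
  have h3 : 2 * k * C ^ k * (1 / N : ℝ) ^ (d * k) ≤ 1 := by
    have h5 : (N : ℝ) ≤ (N : ℝ) ^ (d * k) := by
      calc (N : ℝ) = (N : ℝ) ^ 1 := (pow_one _).symm
        _ ≤ _ := pow_le_pow_right₀ hNR (by nlinarith)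
    rw [one_div, inv_pow, ← div_eq_mul_inv, div_le_one (by positivity)]
    exact hCN.trans h5
  have h4 : 2 * (k : ℝ) * ((Fintype.piFinset S).card : ℝ) ≤
      (V : ℝ) ^ (d * (k * (n + 1 - k))) := by
    have h6 : (0 : ℝ) < (V : ℝ) ^ (d * (k * (n + 1 - k))) := by positivity
    calc 2 * (k : ℝ) * ((Fintype.piFinset S).card : ℝ) ≤ 2 * (k : ℝ) *
          (C ^ k * (1 / N : ℝ) ^ (d * k) * (V : ℝ) ^ (d * (k * (n + 1 - k)))) :=
          mul_le_mul_of_nonneg_left h2 (by positivity)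
      _ = (2 * k * C ^ k * (1 / N : ℝ) ^ (d * k)) * (V : ℝ) ^ (d * (k * (n + 1 - k))) := by ring
      _ ≤ 1 * (V : ℝ) ^ (d * (k * (n + 1 - k))) := mul_le_mul_of_nonneg_right h3 h6.le
      _ = _ := one_mul _
  have h5 : 2 * k * (Fintype.piFinset S).card ≤ V ^ (d * (k * (n + 1 - k))) := by exact_mod_cast h4
  have h6 : (Fintype.piFinset S).card * (k - 1) ≤ (Fintype.piFinset S).card * k :=
    Nat.mul_le_mul_left _ (Nat.sub_le _ _)
  nlinarith

/-- Many vectors in the lattice, by the pigeonhole principle. -/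
theorem many (k n V d : ℕ) (R : Ideal (𝓞 K)) (hR : (Ideal.absNorm R).Prime)
    (f : 𝓞 K →+* ZMod (Ideal.absNorm R)) (m : 𝓞 K) (h : 2 * k ≤ n) (hV : 0 < V)
    (hr1 : Ideal.absNorm R ≤ 4 * V ^ (d * (k * (n + 1 - k)))) (A c : ℝ) (hA : 0 < A) (hc : 0 < c)
    (S : Fin k → Finset (𝓞 K))
    (hS : ∀ (j : Fin k) a, a ∈ S j ↔ Ht a (A * (V : ℝ) ^ (n - 2 * (j : ℕ))))
    (hSc : ∀ j : Fin k, c * (A * (V : ℝ) ^ (n - 2 * (j : ℕ))) ^ d ≤ ((S j).card : ℝ)) :
    ∃ T : Finset (Fin k → 𝓞 K), c ^ k * A ^ (d * k) ≤ 4 * (T.card : ℝ) ∧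
      (∀ g ∈ T, f (ev g m) = 0) ∧
      ∀ g ∈ T, ∀ j : Fin k, Ht (g j) (2 * A * (V : ℝ) ^ (n - 2 * (j : ℕ))) := by
  classical
  have : NeZero (Ideal.absNorm R) := ⟨hR.ne_zero⟩
  obtain ⟨r, hr⟩ : ∃ r, r = Ideal.absNorm R := ⟨_, rfl⟩
  have hVR : (0 : ℝ) < V := by exact_mod_cast hV
  have hcard : c ^ k * A ^ (d * k) * (V : ℝ) ^ (d * (k * (n + 1 - k))) ≤
      ((Fintype.piFinset S).card : ℝ) := by
    rw [Fintype.card_piFinset, ← prod_box k n V d h]
    push_cast
    exact Finset.prod_le_prod (fun _ _ => by positivity) (fun j _ => hSc j)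
  have hex : ∃ x : ZMod (Ideal.absNorm R), (Fintype.piFinset S).card ≤
      Ideal.absNorm R * ((Fintype.piFinset S).filter (fun g => f (ev g m) = x)).card := by
    by_contra hcon
    push Not at hcon
    have hsum : (Fintype.piFinset S).card =
        ∑ x : ZMod (Ideal.absNorm R),
          ((Fintype.piFinset S).filter (fun g => f (ev g m) = x)).card :=
      Finset.card_eq_sum_card_fiberwise (fun x _ => Finset.mem_coe.2 (Finset.mem_univ _))
    have hlt : ∑ x : ZMod (Ideal.absNorm R), Ideal.absNorm R * ((Fintype.piFinset S).filter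
        (fun g => f (ev g m) = x)).card <
          ∑ _x : ZMod (Ideal.absNorm R), (Fintype.piFinset S).card := by
      apply Finset.sum_lt_sum_of_nonempty
      · exact ⟨0, Finset.mem_univ _⟩
      · intro x _
        exact hcon x
    rw [← Finset.mul_sum, ← hsum, Finset.sum_const, Finset.card_univ, ZMod.card,
      smul_eq_mul] at hlt
    exact lt_irrefl _ hlt
  obtain ⟨x, hx⟩ := hex
  set F := (Fintype.piFinset S).filter (fun g => f (ev g m) = x) with hF
  have hFc : c ^ k * A ^ (d * k) ≤ 4 * (F.card : ℝ) := by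
    have h1 : ((Fintype.piFinset S).card : ℝ) ≤ (Ideal.absNorm R : ℝ) * F.card := by
      exact_mod_cast hx
    have h2 : (Ideal.absNorm R : ℝ) ≤ 4 * (V : ℝ) ^ (d * (k * (n + 1 - k))) := by
      exact_mod_cast hr1
    have h3 : (0 : ℝ) < (V : ℝ) ^ (d * (k * (n + 1 - k))) := by positivity
    have h4 : (Ideal.absNorm R : ℝ) * F.card ≤ 4 * (V : ℝ) ^ (d * (k * (n + 1 - k))) * F.card :=
      mul_le_mul_of_nonneg_right h2 (Nat.cast_nonneg _)
    have h5 : c ^ k * A ^ (d * k) * (V : ℝ) ^ (d * (k * (n + 1 - k))) ≤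
        (4 * (F.card : ℝ)) * (V : ℝ) ^ (d * (k * (n + 1 - k))) := by
      calc _ ≤ _ := (hcard.trans h1).trans h4
        _ = _ := by ring
    exact le_of_mul_le_mul_right h5 h3
  have hne : F.Nonempty := by
    rw [← Finset.card_pos]
    have h1 : 0 < c ^ k * A ^ (d * k) := by positivity
    have h2 : (0 : ℝ) < (F.card : ℝ) := by linarith
    exact_mod_cast h2
  obtain ⟨g0, hg0⟩ := hne
  refine ⟨F.image (fun g => g - g0), ?_, ?_, ?_⟩
  · rw [Finset.card_image_of_injective _ (sub_left_injective)]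
    exact hFc
  · intro g hg
    rw [Finset.mem_image] at hg
    obtain ⟨g1, hg1, rfl⟩ := hg
    rw [hF, Finset.mem_filter] at hg1 hg0
    rw [ev_sub, map_sub, hg1.2, hg0.2, sub_self]
  · intro g hg j φ
    rw [Finset.mem_image] at hg
    obtain ⟨g1, hg1, rfl⟩ := hg
    rw [hF, Finset.mem_filter] at hg1 hg0
    have h1 := (hS j _).mp ((Fintype.mem_piFinset.1 hg1.1) j) φ
    have h0 := (hS j _).mp ((Fintype.mem_piFinset.1 hg0.1) j) φ
    have h2 : φ (((g1 - g0) j : 𝓞 K) : K) = φ ((g1 j : 𝓞 K) : K) - φ ((g0 j : 𝓞 K) : K) := by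
      rw [← map_sub]
      rfl
    rw [h2]
    refine (norm_sub_le _ _).trans ?_
    linarith

/-- The scaling map. -/
noncomputable def scl (k n V : ℕ) : (Fin k → K) →ₗ[ℚ] (Fin k → (K →+* ℂ) → ℂ) where
  toFun x j φ := ((((V : ℝ) ^ (n - 2 * (j : ℕ)))⁻¹ : ℝ) : ℂ) * φ (x j)
  map_add' x y := by
    funext j φ
    simp only [Pi.add_apply, map_add, mul_add]
  map_smul' c x := by
    funext j φ
    simp only [Pi.smul_apply, RingHom.id_apply, Algebra.smul_def, map_mul]
    have h1 : φ (algebraMap ℚ K c) = (c : ℂ) := by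
      rw [eq_ratCast, map_ratCast]
    have h2 : (algebraMap ℚ ℂ) c = (c : ℂ) := by rw [eq_ratCast]
    rw [h1, h2]
    ring

theorem scl_apply (k n V : ℕ) (x : Fin k → K) (j : Fin k) (φ : K →+* ℂ) :
    scl k n V x j φ = ((((V : ℝ) ^ (n - 2 * (j : ℕ)))⁻¹ : ℝ) : ℂ) * φ (x j) := rfl

theorem norm_scl (k n V : ℕ) (hV : 0 < V) (x : Fin k → K) (j : Fin k) (φ : K →+* ℂ) :
    ‖scl k n V x j φ‖ = ‖φ (x j)‖ / (V : ℝ) ^ (n - 2 * (j : ℕ)) := by
  have hVR : (0 : ℝ) < V := by exact_mod_cast hV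
  rw [scl_apply, norm_mul, Complex.norm_real, Real.norm_eq_abs, abs_of_pos (by positivity),
    div_eq_inv_mul]

theorem t_GM (hCNT : S_CNT) : S_GM := by
  classical
  intro K _ _ n k hk hn
  obtain ⟨c, C, hc, hC, hcnt⟩ := hCNT K
  obtain ⟨d, hd⟩ : ∃ d, d = Module.finrank ℚ K := ⟨_, rfl⟩
  rw [← hd] at hcnt ⊢
  have hd1 : 1 ≤ d := by rw [hd]; exact Module.finrank_pos
  obtain ⟨N, hN⟩ := exists_nat_ge (max 1 (2 * k * C ^ k))
  have hN1R : (1 : ℝ) ≤ N := (le_max_left _ _).trans hN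
  have hN1 : 1 ≤ N := by exact_mod_cast hN1R
  have hCN : 2 * k * C ^ k ≤ N := (le_max_right _ _).trans hN
  -- the size of the large box
  obtain ⟨A, hA1, hAbig⟩ : ∃ A : ℝ, 1 ≤ A ∧
      4 * (5 * A * N) ^ (d * (k - 1)) < c ^ k * A ^ (d * k) := by
    obtain ⟨A, hA⟩ : ∃ A : ℝ, A = max 1 (4 * (5 * N) ^ (d * (k - 1)) / c ^ k + 1) := ⟨_, rfl⟩
    have hA1 : 1 ≤ A := by rw [hA]; exact le_max_left _ _
    have hA2 : 4 * (5 * N) ^ (d * (k - 1)) / c ^ k < A := by
      have : 4 * (5 * N) ^ (d * (k - 1)) / c ^ k + 1 ≤ A := by rw [hA]; exact le_max_right _ _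
      linarith
    refine ⟨A, hA1, ?_⟩
    rw [div_lt_iff₀ (by positivity)] at hA2
    have h1 : A ≤ A ^ d := by
      calc A = A ^ 1 := (pow_one _).symm
        _ ≤ A ^ d := pow_le_pow_right₀ hA1 hd1
    have h2 : A ^ (d * k) = A ^ (d * (k - 1)) * A ^ d := by
      rw [← pow_add]
      congr 1
      obtain ⟨k', rfl⟩ : ∃ k', k = k' + 1 := ⟨k - 1, by omega⟩
      rw [Nat.add_sub_cancel, Nat.mul_succ]
    have h3 : (5 * A * N) ^ (d * (k - 1)) = A ^ (d * (k - 1)) * (5 * N) ^ (d * (k - 1)) := by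
      rw [← mul_pow]
      congr 1
      ring
    have h4 : (0 : ℝ) < A ^ (d * (k - 1)) := by positivity
    have h5 : 4 * (5 * (N : ℝ)) ^ (d * (k - 1)) < A ^ d * c ^ k :=
      hA2.trans_le (mul_le_mul_of_nonneg_right h1 (by positivity))
    rw [h2, h3]
    calc 4 * (A ^ (d * (k - 1)) * (5 * (N : ℝ)) ^ (d * (k - 1))) =
          A ^ (d * (k - 1)) * (4 * (5 * (N : ℝ)) ^ (d * (k - 1))) := by ring
      _ < A ^ (d * (k - 1)) * (A ^ d * c ^ k) := mul_lt_mul_of_pos_left h5 h4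
      _ = _ := by ring
  refine ⟨2 * A, by linarith, N, ?_⟩
  intro V R hV hR hr1 hr2
  have hV0 : 0 < V := by omega
  have hVR : (0 : ℝ) < V := by exact_mod_cast hV0
  have hV1 : (1 : ℝ) ≤ V := by exact_mod_cast hV0
  obtain ⟨f, hf⟩ := exists_hom R hR
  -- the boxes
  have hsm : ∀ j : Fin k, (1 : ℝ) ≤ (1 / N : ℝ) * (V : ℝ) ^ (n - 2 * (j : ℕ)) := by
    intro j
    rw [one_div, ← div_eq_inv_mul, le_div_iff₀ (by linarith), one_mul]
    have h1 : (N : ℝ) ≤ V := by exact_mod_cast hV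
    have h2 : (V : ℝ) ≤ (V : ℝ) ^ (n - 2 * (j : ℕ)) := by
      have := j.2
      calc (V : ℝ) = (V : ℝ) ^ 1 := (pow_one _).symm
        _ ≤ _ := pow_le_pow_right₀ hV1 (by omega)
    linarith
  have hbg : ∀ j : Fin k, (1 : ℝ) ≤ A * (V : ℝ) ^ (n - 2 * (j : ℕ)) := by
    intro j
    have h2 : (1 : ℝ) ≤ (V : ℝ) ^ (n - 2 * (j : ℕ)) := one_le_pow₀ hV1
    nlinarith
  choose S hS hS1 hS2 using fun j : Fin k => hcnt _ (hsm j)
  choose S' hS' hS1' hS2' using fun j : Fin k => hcnt _ (hbg j)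
  have hb := bad_count k n V d hd R hR f hf hk hn N hN1 hV hr1 S hS C hC hCN hS2
  set bad := (Finset.range (Ideal.absNorm R)).filter (fun m : ℕ => ∃ g ∈ Fintype.piFinset S,
      g ≠ 0 ∧ f (ev g (m : 𝓞 K)) = 0) with hbad
  refine ⟨Finset.range (Ideal.absNorm R) \ bad, Finset.sdiff_subset, ?_, ?_⟩
  · have hbsub : bad ⊆ Finset.range (Ideal.absNorm R) := Finset.filter_subset _ _
    rw [Finset.card_sdiff_of_subset hbsub, Finset.card_range]
    omega
  intro m hm
  rw [Finset.mem_sdiff] at hm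
  have hgood : ∀ g : Fin k → 𝓞 K, f (ev g (m : 𝓞 K)) = 0 → g ∈ Fintype.piFinset S → g = 0 := by
    intro g hg1 hg2
    by_contra hg0
    exact hm.2 (Finset.mem_filter.2 ⟨hm.1, g, hg2, hg0, hg1⟩)
  obtain ⟨T, hT1, hT2, hT3⟩ := many k n V d R hR f (m : 𝓞 K) hn hV0 hr2 A c (by linarith) hc
    S' hS' hS1'
  -- the vectors over `K`
  obtain ⟨ι, hι⟩ : ∃ ι : (Fin k → 𝓞 K) → (Fin k → K), ι = fun g j => ((g j : 𝓞 K) : K) := ⟨_, rfl⟩
  have hιinj : Function.Injective ι := by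
    intro g g' hgg
    funext j
    rw [hι] at hgg
    exact RingOfIntegers.ext (congrFun hgg j)
  have hspan : Submodule.span K (ι '' (T : Set (Fin k → 𝓞 K))) = ⊤ := by
    by_contra hne
    set W := Submodule.span K (ι '' (T : Set (Fin k → 𝓞 K))) with hW
    have hrank : Module.finrank K W ≤ k - 1 := by
      have := Submodule.finrank_lt (s := W) hne
      rw [Module.finrank_fin_fun] at this
      omega
    -- a basis over `ℚ`
    have hfinW : FiniteDimensional ℚ W := FiniteDimensional.trans ℚ K W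
    have hrankQ : Module.finrank ℚ W ≤ d * (k - 1) := by
      rw [← Module.finrank_mul_finrank ℚ K W, ← hd]
      exact Nat.mul_le_mul_left _ hrank
    obtain ⟨u, hu⟩ : ∃ u : Module.Basis (Fin (Module.finrank ℚ W)) ℚ W, True :=
      ⟨Module.finBasis ℚ W, trivial⟩
    obtain ⟨E, hE⟩ : ∃ E : Submodule ℝ (Fin k → (K →+* ℂ) → ℂ), E = Submodule.span ℝ
      (Set.range fun i => scl k n V ((u i : W) : Fin k → K)) := ⟨_, rfl⟩
    have hEfin : FiniteDimensional ℝ E := by
      rw [hE]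
      exact FiniteDimensional.span_of_finite ℝ (Set.finite_range _)
    have hErank : Module.finrank ℝ E ≤ d * (k - 1) := by
      rw [hE]
      refine (finrank_range_le_card _).trans ?_
      rw [Fintype.card_fin]
      exact hrankQ
    have hmemE : ∀ x ∈ W, scl k n V x ∈ E := by
      intro x hx
      have h1 := u.sum_repr ⟨x, hx⟩
      have h2 : x = ∑ i, (u.repr ⟨x, hx⟩ i) • ((u i : W) : Fin k → K) := by
        have h3 := congrArg W.subtype h1
        rw [map_sum] at h3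
        exact h3.symm
      rw [h2, map_sum, hE]
      refine Submodule.sum_mem _ fun i _ => ?_
      rw [map_smul]
      have h4 : (u.repr ⟨x, hx⟩ i) • scl k n V ((u i : W) : Fin k → K) =
          ((u.repr ⟨x, hx⟩ i : ℚ) : ℝ) • scl k n V ((u i : W) : Fin k → K) := by
        funext j φ
        simp only [Pi.smul_apply, Algebra.smul_def]
        congr 1
      rw [h4]
      exact Submodule.smul_mem _ _ (Submodule.subset_span ⟨i, rfl⟩)
    set U : Finset (Fin k → (K →+* ℂ) → ℂ) := T.image (fun g => scl k n V (ι g)) with hU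
    have hsclinj : Function.Injective (fun g => scl k n V (ι g)) := by
      intro g g' hgg
      apply hιinj
      funext j
      have hne : Nonempty (K →+* ℂ) := inferInstance
      obtain ⟨φ⟩ := hne
      have h1 := congrFun (congrFun hgg j) φ
      simp only [scl_apply] at h1
      have h2 : ((((V : ℝ) ^ (n - 2 * (j : ℕ)))⁻¹ : ℝ) : ℂ) ≠ 0 := by
        rw [Ne, Complex.ofReal_eq_zero]
        positivity
      exact φ.injective (mul_left_cancel₀ h2 h1)
    have hUcard : U.card = T.card := Finset.card_image_of_injective _ hsclinj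
    have hpk := Pool.Agent.D0H87.SF.PAK.t_PAK (Fin k → (K →+* ℂ) → ℂ) E U (2 * A) (1 / N)
      (by linarith) (by positivity) ?_ ?_
    · have h1 : (1 : ℝ) ≤ 1 + 2 * (2 * A) / (1 / (N : ℝ)) := by
        have : (0 : ℝ) ≤ 2 * (2 * A) / (1 / (N : ℝ)) := by positivity
        linarith
      have h2 : (U.card : ℝ) ≤ (1 + 2 * (2 * A) / (1 / (N : ℝ))) ^ (d * (k - 1)) :=
        hpk.trans (pow_le_pow_right₀ h1 hErank)
      have h3 : 1 + 2 * (2 * A) / (1 / (N : ℝ)) ≤ 5 * A * N := by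
        have : 2 * (2 * A) / (1 / (N : ℝ)) = 4 * A * N := by
          field_simp
          ring
        rw [this]
        nlinarith
      have h4 : (U.card : ℝ) ≤ (5 * A * N) ^ (d * (k - 1)) :=
        h2.trans (pow_le_pow_left₀ (by linarith) h3 _)
      rw [hUcard] at h4
      linarith
    · intro x hx
      rw [hU, Finset.mem_image] at hx
      obtain ⟨g, hg, rfl⟩ := hx
      refine ⟨hmemE _ (Submodule.subset_span ⟨g, hg, rfl⟩), ?_⟩
      rw [pi_norm_le_iff_of_nonneg (by linarith)]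
      intro j
      rw [pi_norm_le_iff_of_nonneg (by linarith)]
      intro φ
      rw [norm_scl k n V hV0, div_le_iff₀ (by positivity)]
      have h1 := hT3 g hg j φ
      rw [hι]
      exact h1
    · intro x hx y hy hxy
      rw [hU, Finset.mem_image] at hx hy
      obtain ⟨g, hg, rfl⟩ := hx
      obtain ⟨g', hg', rfl⟩ := hy
      have hgg : g - g' ≠ 0 := by
        intro h0
        apply hxy
        rw [sub_eq_zero.1 h0]
      have hnb : g - g' ∉ Fintype.piFinset S := by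
        intro hmem
        apply hgg
        apply hgood _ _ hmem
        rw [ev_sub, map_sub, hT2 g hg, hT2 g' hg', sub_self]
      rw [Fintype.mem_piFinset] at hnb
      push Not at hnb
      obtain ⟨j, hj⟩ := hnb
      rw [hS] at hj
      unfold Ht at hj
      push Not at hj
      obtain ⟨φ, hφ⟩ := hj
      have h1 : (scl k n V (ι g) - scl k n V (ι g')) = scl k n V (ι (g - g')) := by
        rw [← map_sub]
        congr 1
        funext i
        rw [hι]
        exact (map_sub (algebraMap (𝓞 K) K) (g i) (g' i)).symm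
      rw [h1]
      have h2 : (1 : ℝ) / N ≤ ‖scl k n V (ι (g - g')) j φ‖ := by
        rw [norm_scl k n V hV0, le_div_iff₀ (by positivity), hι]
        exact hφ.le
      exact (h2.trans (norm_le_pi_norm _ φ)).trans (norm_le_pi_norm _ j)
  -- choose independent vectors
  obtain ⟨b, hbT, hbspan, hbli⟩ := exists_linearIndependent K (ι '' (T : Set (Fin k → 𝓞 K)))
  have hbas : ⊤ ≤ Submodule.span K (Set.range (Subtype.val : b → (Fin k → K))) := by
    rw [Subtype.range_coe, hbspan, hspan]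
  let B : Module.Basis b K (Fin k → K) := Module.Basis.mk hbli hbas
  let eqv : Fin k ≃ b := (Pi.basisFun K (Fin k)).indexEquiv B
  have hmem : ∀ i : Fin k, ∃ g ∈ T, ι g = (eqv i : Fin k → K) := by
    intro i
    obtain ⟨g, hg, hg2⟩ := hbT (eqv i).2
    exact ⟨g, hg, hg2⟩
  choose g hgS hgf using hmem
  refine ⟨g, ?_, ?_, ?_⟩
  · have h1 : LinearIndependent K (fun i : Fin k => (eqv i : Fin k → K)) :=
      hbli.comp eqv eqv.injective
    have h3 : (fun i j => ((g i j : 𝓞 K) : K)) = fun i : Fin k => (eqv i : Fin k → K) := by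
      funext i
      rw [← hgf i, hι]
    rw [h3]
    exact h1
  · intro i
    exact (hf _).mp (hT2 _ (hgS i))
  · intro i j
    exact hT3 _ (hgS i) j

end Pool.Agent.D0H65.SFK.GM
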