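import Pool.Agent.D0H15.SK.Stm
import Pool.Agent.N842.TX.Pit

/-! Project SFK (helper15), module PR (helper65): many prime ideals of degree one. -/

set_option autoImplicit false

namespace Pool.Agent.D0H65.SFK

open Finset NumberField IsDedekindDomain Filter Topology
open Pool.Agent.N842.HS (VT mem_VT)

theorem t_PR : Pool.Agent.D0H15.SK.S_PR := by
  classical
  intro K _ _ e he
  have he0 : (0 : ℝ) < e := by exact_mod_cast he
  have h1 : Tendsto (fun T : ℕ => H332.PIT.TT K T / T) atTop (𝓝 1) :=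
    H332.PIT.TT_tendsto (Pool.Agent.H484R2.continuation K)
  have hlo : ∀ᶠ T : ℕ in atTop, (9 / 10 : ℝ) < H332.PIT.TT K T / T :=
    h1.eventually (lt_mem_nhds (by norm_num))
  have hup : ∀ᶠ T : ℕ in atTop, H332.PIT.TT K T / T < (11 / 10 : ℝ) :=
    h1.eventually (gt_mem_nhds (by norm_num))
  obtain ⟨T1, hT1⟩ := eventually_atTop.1 hlo
  obtain ⟨T2, hT2⟩ := eventually_atTop.1 hup
  have h2 : ∀ᶠ x : ℝ in Filter.atTop, Real.log x ≤ (1 / (2 * e)) * x := by
    have := Real.isLittleO_log_id_atTop.bound (show (0 : ℝ) < 1 / (2 * e) by positivity)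
    filter_upwards [this, Filter.eventually_ge_atTop 1] with x hx hx1
    rw [Real.norm_eq_abs, id, Real.norm_eq_abs, abs_of_nonneg (by linarith : (0 : ℝ) ≤ x)] at hx
    exact (le_abs_self _).trans hx
  obtain ⟨x2, hx2⟩ := Filter.eventually_atTop.1 h2
  refine ⟨T1 + T2 + ⌈x2⌉₊ + 4, fun V hV => ?_⟩
  have hV2 : x2 ≤ V := (Nat.le_ceil x2).trans (by exact_mod_cast (by omega : ⌈x2⌉₊ ≤ V))
  have hV4 : 4 ≤ V := by omega
  have hV4' : (4 : ℝ) ≤ V := by exact_mod_cast hV4
  obtain ⟨N, hN⟩ : ∃ N : ℕ, N = V ^ e := ⟨_, rfl⟩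
  have hNV : V ≤ N := by
    rw [hN]
    exact Nat.le_self_pow (by omega) _
  have hNV' : (V : ℝ) ≤ N := by exact_mod_cast hNV
  have hN0 : (0 : ℝ) < N := by linarith
  -- the sum over the primes of degree one
  have hS : ∀ T : ℕ, ∑ v ∈ (VT K T).filter (fun v => (Ideal.absNorm v.asIdeal).Prime),
      Real.log (Ideal.absNorm v.asIdeal) = H332.PIT.TT K T := fun T =>
    Pool.Agent.N842.TX.TT_eq K T
  have ha := hT1 (4 * N) (by omega)
  have hb := hT2 N (by omega)
  rw [lt_div_iff₀ (by push_cast; linarith)] at ha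
  rw [div_lt_iff₀ hN0] at hb
  obtain ⟨F, hF⟩ : ∃ F : Finset (HeightOneSpectrum (𝓞 K)),
      F = (VT K (4 * N)).filter (fun v => (Ideal.absNorm v.asIdeal).Prime ∧
        N < Ideal.absNorm v.asIdeal) := ⟨_, rfl⟩
  have hsplit : H332.PIT.TT K (4 * N) = H332.PIT.TT K N +
      ∑ v ∈ F, Real.log (Ideal.absNorm v.asIdeal) := by
    rw [← hS, ← hS, ← sum_filter_add_sum_filter_not ((VT K (4 * N)).filter
      (fun v => (Ideal.absNorm v.asIdeal).Prime)) (fun v => Ideal.absNorm v.asIdeal ≤ N)]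
    congr 1
    · refine sum_congr ?_ fun _ _ => rfl
      ext v
      simp only [mem_filter, mem_VT]
      constructor
      · rintro ⟨⟨_, h⟩, h'⟩; exact ⟨h', h⟩
      · rintro ⟨h', h⟩; exact ⟨⟨by omega, h⟩, h'⟩
    · refine sum_congr ?_ fun _ _ => rfl
      ext v
      simp only [hF, mem_filter, mem_VT, not_le, and_assoc]
  have hle : ∑ v ∈ F, Real.log (Ideal.absNorm v.asIdeal) ≤
      (F.card : ℝ) * Real.log ((4 * N : ℕ) : ℝ) := by
    rw [← nsmul_eq_mul]
    apply sum_le_card_nsmul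
    intro v hv
    rw [hF, mem_filter, mem_VT] at hv
    apply Real.log_le_log
    · have := hv.2.1.pos
      exact_mod_cast this
    · exact_mod_cast hv.1
  have hlog4 : Real.log 4 = 2 * Real.log 2 := by
    rw [show (4 : ℝ) = 2 ^ 2 by norm_num, Real.log_pow]
    push_cast
    ring
  have hlogN : Real.log ((4 * N : ℕ) : ℝ) ≤ V := by
    have h3 := hx2 V hV2
    rw [hN]
    push_cast
    rw [Real.log_mul (by norm_num) (by positivity), Real.log_pow, hlog4]
    have h4 : (e : ℝ) * Real.log V ≤ V / 2 := by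
      calc (e : ℝ) * Real.log V ≤ e * ((1 / (2 * e)) * V) :=
            mul_le_mul_of_nonneg_left h3 he0.le
        _ = V / 2 := by field_simp
    have h5 : Real.log 2 < 0.7 := by
      have := Real.log_two_lt_d9
      linarith
    linarith
  have hmain : (N : ℝ) ≤ (F.card : ℝ) * V := by
    have h6 : (F.card : ℝ) * Real.log ((4 * N : ℕ) : ℝ) ≤ (F.card : ℝ) * V :=
      mul_le_mul_of_nonneg_left hlogN (Nat.cast_nonneg _)
    push_cast at ha
    linarith
  have hNe : N = V ^ (e - 1) * V := by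
    rw [hN, ← pow_succ]
    congr 1
    omega
  have hcard : V ^ (e - 1) ≤ F.card := by
    have : V ^ (e - 1) * V ≤ F.card * V := by
      rw [← hNe]
      exact_mod_cast hmain
    exact Nat.le_of_mul_le_mul_right this (by omega)
  refine ⟨F.image (fun v => v.asIdeal), ?_, ?_⟩
  · rw [card_image_of_injective _ (fun v w h => HeightOneSpectrum.ext h)]
    exact hcard
  · intro R hR
    rw [mem_image] at hR
    obtain ⟨v, hv, rfl⟩ := hR
    rw [hF, mem_filter, mem_VT] at hv
    rw [← hN]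
    exact ⟨hv.2.1, hv.2.2, hv.1⟩

end Pool.Agent.D0H65.SFK
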