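import Pool.Agent.D0H15.SK.Basic
import Pool.Agent.D0H15.SF.Dsc

/-! Project SFK (helper15), module IDX (helper65): the discriminant of the field. -/

set_option autoImplicit false

open Polynomial NumberField Matrix

namespace Pool.Agent.D0H65.SFK

open Pool.Agent.D0H15.SK

/-- The discriminant of an order whose index is divisible by `r`. -/
theorem discr_le_index {L : Type} [Field L] [NumberField L] {ι : Type} [Fintype ι] [DecidableEq ι]
    (b : Module.Basis ι ℚ L) (hb : ∀ i, IsIntegral ℤ (b i)) (r : ℕ) (hr : r.Prime) (v : ι → ℤ)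
    (β : L) (hβ : IsIntegral ℤ β) (hv : ∑ i, (v i : L) * b i = (r : L) * β)
    (hnd : ∃ i, ¬ (r : ℤ) ∣ v i) :
    (r : ℚ) ^ 2 * |((NumberField.discr L : ℤ) : ℚ)| ≤ |Algebra.discr ℚ b| := by
  have hcard : Fintype.card (Module.Free.ChooseBasisIndex ℤ (𝓞 L)) = Fintype.card ι := by
    rw [← Module.finrank_eq_card_basis (integralBasis L), ← Module.finrank_eq_card_basis b]
  obtain ⟨e⟩ : Nonempty (Module.Free.ChooseBasisIndex ℤ (𝓞 L) ≃ ι) := ⟨Fintype.equivOfCardEq hcard⟩
  obtain ⟨BQ, hBQ⟩ : ∃ BQ : Module.Basis ι ℚ L, BQ = (integralBasis L).reindex e := ⟨_, rfl⟩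
  obtain ⟨y, hy⟩ : ∃ y : ι → 𝓞 L, ∀ k, algebraMap (𝓞 L) L (y k) = b k :=
    ⟨fun k => ⟨b k, hb k⟩, fun k => rfl⟩
  obtain ⟨P', hP'⟩ : ∃ P' : Matrix ι ι ℤ, ∀ l k, P' l k = (RingOfIntegers.basis L).repr (y k) (e.symm l) :=
    ⟨Matrix.of fun l k => (RingOfIntegers.basis L).repr (y k) (e.symm l), fun _ _ => rfl⟩
  have hrepr : ∀ k l, BQ.repr (b k) l = ((P' l k : ℤ) : ℚ) := by
    intro k l
    rw [hBQ, Module.Basis.repr_reindex_apply, ← hy, integralBasis_repr_apply, hP']
    rfl
  have h1 : (b : ι → L) = (BQ : ι → L) ᵥ* (P'.map (Int.cast : ℤ → ℚ)).map (algebraMap ℚ L) := by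
    funext k
    simp only [Matrix.vecMul, dotProduct, Matrix.map_apply]
    rw [← BQ.sum_repr (b k)]
    refine Finset.sum_congr rfl fun l _ => ?_
    rw [Algebra.smul_def, mul_comm, hrepr]
  have h2 : Algebra.discr ℚ BQ = ((NumberField.discr L : ℤ) : ℚ) := by
    rw [coe_discr, hBQ, Module.Basis.coe_reindex]
    exact Algebra.discr_reindex ℚ (integralBasis L) e
  have h3 : Algebra.discr ℚ b = ((P'.det : ℤ) : ℚ) ^ 2 * ((NumberField.discr L : ℤ) : ℚ) := by
    rw [h1, Algebra.discr_of_matrix_vecMul, h2]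
    congr 2
    exact ((Int.castRingHom ℚ).map_det P').symm
  have hdet : P'.det ≠ 0 := by
    intro h0
    have h4 := Algebra.discr_not_zero_of_basis ℚ b
    rw [h3, h0] at h4
    simp at h4
  -- the divisibility
  obtain ⟨β', hβ'⟩ : ∃ β' : 𝓞 L, algebraMap (𝓞 L) L β' = β := ⟨⟨β, hβ⟩, rfl⟩
  have hvy : ∑ k, v k • y k = (r : ℤ) • β' := by
    apply FaithfulSMul.algebraMap_injective (𝓞 L) L
    rw [map_sum]
    simp only [zsmul_eq_mul, map_mul, map_intCast, hy, Int.cast_natCast, map_natCast, hβ']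
    exact hv
  have hPv : ∀ l, (r : ℤ) ∣ (P' *ᵥ v) l := by
    intro l
    have h4 := congrArg (fun z => (RingOfIntegers.basis L).repr z (e.symm l)) hvy
    simp only [map_sum, map_zsmul, Finsupp.coe_finsetSum, Finset.sum_apply, Finsupp.coe_smul,
      Pi.smul_apply, smul_eq_mul] at h4
    refine ⟨(RingOfIntegers.basis L).repr β' (e.symm l), ?_⟩
    rw [← h4]
    simp only [Matrix.mulVec, dotProduct, hP']
    exact Finset.sum_congr rfl fun k _ => mul_comm _ _
  have hdvd : (r : ℤ) ∣ P'.det := by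
    obtain ⟨i, hi⟩ := hnd
    have h5 : P'.adjugate *ᵥ (P' *ᵥ v) = P'.det • v := by
      rw [Matrix.mulVec_mulVec, Matrix.adjugate_mul, Matrix.smul_mulVec, Matrix.one_mulVec]
    have h6 : (r : ℤ) ∣ P'.det * v i := by
      have h7 := congrFun h5 i
      rw [Pi.smul_apply, smul_eq_mul] at h7
      rw [← h7]
      simp only [Matrix.mulVec, dotProduct]
      refine Finset.dvd_sum fun l _ => ?_
      exact Dvd.dvd.mul_left (hPv l) _
    exact (Int.Prime.dvd_mul' hr h6).resolve_right hi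
  rw [h3, abs_mul, abs_pow]
  have h5 : (r : ℚ) ≤ |((P'.det : ℤ) : ℚ)| := by
    rw [← Int.cast_abs]
    have h8 : (r : ℤ) ≤ |P'.det| := Int.le_of_dvd (abs_pos.mpr hdet) ((dvd_abs _ _).mpr hdvd)
    exact_mod_cast h8
  have h6 : (r : ℚ) ^ 2 ≤ |((P'.det : ℤ) : ℚ)| ^ 2 := pow_le_pow_left₀ (Nat.cast_nonneg _) h5 2
  exact mul_le_mul_of_nonneg_right h6 (abs_nonneg _)

/-- The first quotients. -/
theorem quot {A : Type} [CommRing A] [IsDomain A] {n : ℕ} (hn : 2 ≤ n) (f : A[X]) (hf : f.Monic)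
    (hdeg : f.natDegree = n) (m : A) :
    ∃ g q : A[X], g.Monic ∧ g.natDegree = n - 1 ∧ f = C (f.eval m) + (X - C m) * g ∧
      g = C ((derivative f).eval m) + (X - C m) * q := by
  obtain ⟨g, hg⟩ : ∃ g, g = f /ₘ (X - C m) := ⟨_, rfl⟩
  have h1 : f = C (f.eval m) + (X - C m) * g := by
    have := modByMonic_add_div f (X - C m)
    rw [modByMonic_X_sub_C_eq_C_eval, ← hg] at this
    exact this.symm
  have h2 : (derivative f).eval m = g.eval m := by
    conv_lhs => rw [h1]
    simp [derivative_mul]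
  have h3 : (X - C m) * g = f - C (f.eval m) := by
    conv_rhs => rw [h1]
    simp
  have h4 : (f - C (f.eval m)).Monic := by
    apply hf.sub_of_left
    refine lt_of_le_of_lt degree_C_le ?_
    rw [← natDegree_pos_iff_degree_pos]
    omega
  have h5 : g.Monic := (monic_X_sub_C m).of_mul_monic_left (by rw [h3]; exact h4)
  have h6 : g.natDegree = n - 1 := by
    have h7 : ((X - C m) * g).natDegree = n := by
      rw [h3, natDegree_sub_C, hdeg]
    rw [(monic_X_sub_C m).natDegree_mul h5, natDegree_X_sub_C] at h7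
    omega
  refine ⟨g, g /ₘ (X - C m), h5, h6, h1, ?_⟩
  have := modByMonic_add_div g (X - C m)
  rw [modByMonic_X_sub_C_eq_C_eval, ← h2] at this
  exact this.symm

section

variable {K : Type} [Field K] [NumberField K]

/-- an element of the inverse ideal which is not an integer -/
theorem exists_c (R : Ideal (𝓞 K)) (hR : (Ideal.absNorm R).Prime) : ∃ c : K,
    (∀ w : 𝓞 K, (w : K) ≠ c) ∧ (∀ a ∈ R, ∃ w : 𝓞 K, (w : K) = c * a) ∧
    ∀ a ∈ R ^ 2, ∃ w : 𝓞 K, (w : K) = c ^ 2 * a := by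
  have hR0 : R ≠ ⊥ := by
    rintro rfl
    rw [Ideal.absNorm_bot] at hR
    exact Nat.not_prime_zero hR
  have hR1 : R ≠ ⊤ := by
    rintro rfl
    rw [Ideal.absNorm_top] at hR
    exact Nat.not_prime_one hR
  obtain ⟨c, hc, hc1⟩ := FractionalIdeal.exists_notMem_one_of_ne_bot (K := K) hR0 hR1
  have hmem : ∀ a ∈ R, ∃ w : 𝓞 K, (w : K) = c * a := by
    intro a ha
    rw [FractionalIdeal.mem_inv_iff (by
      rw [Ne, FractionalIdeal.coeIdeal_eq_zero]; exact hR0)] at hc
    have h1 := hc (a : K) (FractionalIdeal.mem_coeIdeal_of_mem _ ha)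
    rw [FractionalIdeal.mem_one_iff] at h1
    obtain ⟨w, hw⟩ := h1
    exact ⟨w, hw⟩
  refine ⟨c, fun w hw => hc1 ?_, hmem, ?_⟩
  · rw [FractionalIdeal.mem_one_iff]
    exact ⟨w, hw⟩
  · intro a ha
    rw [pow_two] at ha
    refine Submodule.mul_induction_on ha (fun x hx y hy => ?_) (fun x y hx hy => ?_)
    · obtain ⟨w1, h1⟩ := hmem x hx
      obtain ⟨w2, h2⟩ := hmem y hy
      refine ⟨w1 * w2, ?_⟩
      show algebraMap (𝓞 K) K (w1 * w2) = c ^ 2 * algebraMap (𝓞 K) K (x * y)
      have h1' : algebraMap (𝓞 K) K w1 = c * algebraMap (𝓞 K) K x := h1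
      have h2' : algebraMap (𝓞 K) K w2 = c * algebraMap (𝓞 K) K y := h2
      rw [map_mul, map_mul, h1', h2']
      ring
    · obtain ⟨w1, h1⟩ := hx
      obtain ⟨w2, h2⟩ := hy
      refine ⟨w1 + w2, ?_⟩
      show algebraMap (𝓞 K) K (w1 + w2) = c ^ 2 * algebraMap (𝓞 K) K (x + y)
      have h1' : algebraMap (𝓞 K) K w1 = c ^ 2 * algebraMap (𝓞 K) K x := h1
      have h2' : algebraMap (𝓞 K) K w2 = c ^ 2 * algebraMap (𝓞 K) K y := h2
      rw [map_add, map_add, h1', h2']
      ring

/-- values of integral polynomials at integral elements -/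
theorem aeval_integral {L : Type} [Field L] [Algebra K L] (x : L) (hx : IsIntegral ℤ x)
    (q : (𝓞 K)[X]) : IsIntegral ℤ (aeval x (q.map (algebraMap (𝓞 K) K))) := by
  rw [aeval_eq_sum_range]
  refine IsIntegral.sum _ fun i _ => ?_
  rw [Algebra.smul_def, coeff_map]
  refine IsIntegral.mul ?_ (hx.pow _)
  have h1 : IsIntegral ℤ ((q.coeff i : 𝓞 K) : K) := RingOfIntegers.isIntegral_coe _
  exact h1.map (Algebra.algHom ℤ K L)

/-- The integer `c g(θ)`. -/
theorem integral_beta {L : Type} [Field L] [Algebra K L] (f g q : (𝓞 K)[X])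
    (m : 𝓞 K) (h1 : f = C (f.eval m) + (X - C m) * g)
    (h2 : g = C ((derivative f).eval m) + (X - C m) * q) (c : K) (A B : 𝓞 K)
    (hA : (A : K) = c ^ 2 * (f.eval m : 𝓞 K)) (hB : (B : K) = c * ((derivative f).eval m : 𝓞 K))
    (x : L) (hxint : IsIntegral ℤ x) (hx : aeval x (f.map (algebraMap (𝓞 K) K)) = 0) :
    IsIntegral ℤ (algebraMap K L c * aeval x (g.map (algebraMap (𝓞 K) K))) := by
  obtain ⟨G, hG⟩ : ∃ G, G = aeval x (g.map (algebraMap (𝓞 K) K)) := ⟨_, rfl⟩
  obtain ⟨Q, hQ⟩ : ∃ Q, Q = aeval x (q.map (algebraMap (𝓞 K) K)) := ⟨_, rfl⟩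
  have hqint : IsIntegral ℤ Q := by rw [hQ]; exact aeval_integral x hxint q
  have e1 : 0 = algebraMap K L ((f.eval m : 𝓞 K) : K) + (x - algebraMap K L (m : K)) * G := by
    have := congrArg (fun p => aeval x (p.map (algebraMap (𝓞 K) K))) h1
    simp only [Polynomial.map_add, Polynomial.map_mul, Polynomial.map_sub, map_C, map_X, map_add,
      map_mul, map_sub, aeval_C, aeval_X] at this
    rw [hx, ← hG] at this
    exact this
  have e2 : G = algebraMap K L (((derivative f).eval m : 𝓞 K) : K) +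
      (x - algebraMap K L (m : K)) * Q := by
    have := congrArg (fun p => aeval x (p.map (algebraMap (𝓞 K) K))) h2
    simp only [Polynomial.map_add, Polynomial.map_mul, Polynomial.map_sub, map_C, map_X, map_add,
      map_mul, map_sub, aeval_C, aeval_X] at this
    rw [← hG, ← hQ] at this
    exact this
  rw [← hG]
  have hAL : algebraMap K L (A : K) =
      algebraMap K L c ^ 2 * algebraMap K L ((f.eval m : 𝓞 K) : K) := by
    rw [hA, map_mul, map_pow]
  have hBL : algebraMap K L (B : K) =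
      algebraMap K L c * algebraMap K L (((derivative f).eval m : 𝓞 K) : K) := by
    rw [hB, map_mul]
  have key : (algebraMap K L c * G) ^ 2 - algebraMap K L (B : K) * (algebraMap K L c * G) +
      algebraMap K L (A : K) * Q = 0 := by
    rw [hAL, hBL]
    linear_combination (algebraMap K L c) ^ 2 * G * e2 - (algebraMap K L c) ^ 2 * Q * e1
  have hAint : IsIntegral ℤ (algebraMap K L (A : K)) :=
    (RingOfIntegers.isIntegral_coe A).map (Algebra.algHom ℤ K L)
  have hBint : IsIntegral ℤ (algebraMap K L (B : K)) :=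
    (RingOfIntegers.isIntegral_coe B).map (Algebra.algHom ℤ K L)
  have hint : IsIntegral (integralClosure ℤ L) (algebraMap K L c * G) := by
    let c' : integralClosure ℤ L := ⟨algebraMap K L (A : K) * Q, hAint.mul hqint⟩
    let b' : integralClosure ℤ L := ⟨algebraMap K L (B : K), hBint⟩
    refine ⟨X ^ 2 + (C (-b') * X + C c'), ?_, ?_⟩
    · apply monic_X_pow_add
      exact degree_linear_lt
    · rw [eval₂_add, eval₂_add, eval₂_mul, eval₂_C, eval₂_C, eval₂_X, eval₂_X_pow]
      have hc : algebraMap (integralClosure ℤ L) L c' = algebraMap K L (A : K) * Q := rfl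
      have hb : algebraMap (integralClosure ℤ L) L b' = algebraMap K L (B : K) := rfl
      rw [hc, map_neg, hb]
      linear_combination key
  exact isIntegral_trans _ hint

/-- every embedding of `L` extends to the algebraic closure -/
theorem ext_emb (L : IntermediateField K (AlgebraicClosure K)) (τ : L →+* ℂ) :
    ∃ φ : AlgebraicClosure K →+* ℂ, ∀ x : L, φ (x : AlgebraicClosure K) = τ x := by
  let _ : Algebra L ℂ := τ.toAlgebra
  have h0 : Algebra.IsAlgebraic K (AlgebraicClosure K) := AlgebraicClosure.isAlgebraic K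
  have : Algebra.IsAlgebraic L (AlgebraicClosure K) := Algebra.IsAlgebraic.tower_top (K := K) L
  let φ : AlgebraicClosure K →ₐ[L] ℂ := IsAlgClosed.lift
  exact ⟨φ.toRingHom, fun x => φ.commutes x⟩

end

theorem t_IDX : S_IDX := by
  classical
  intro K _ _ n hn
  -- the size of the integral basis of `K`
  obtain ⟨H, hH1, hH⟩ : ∃ H : ℝ, 1 ≤ H ∧ ∀ (φ : K →+* ℂ)
      (i : Module.Free.ChooseBasisIndex ℤ (𝓞 K)), ‖φ (integralBasis K i)‖ ≤ H := by
    have hfin : Finite (K →+* ℂ) := inferInstance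
    have hft : Fintype (K →+* ℂ) := Fintype.ofFinite _
    refine ⟨1 + ∑ φ : K →+* ℂ, ∑ i, ‖φ (integralBasis K i)‖, ?_, fun φ i => ?_⟩
    · have : 0 ≤ ∑ φ : K →+* ℂ, ∑ i, ‖φ (integralBasis K i)‖ :=
        Finset.sum_nonneg fun φ _ => Finset.sum_nonneg fun i _ => norm_nonneg _
      linarith
    · have h1 : ‖φ (integralBasis K i)‖ ≤ ∑ i, ‖φ (integralBasis K i)‖ :=
        Finset.single_le_sum (f := fun i => ‖φ (integralBasis K i)‖)
          (fun i _ => norm_nonneg _) (Finset.mem_univ i)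
      have h2 : ∑ i, ‖φ (integralBasis K i)‖ ≤ ∑ φ : K →+* ℂ, ∑ i, ‖φ (integralBasis K i)‖ :=
        Finset.single_le_sum (f := fun φ : K →+* ℂ => ∑ i, ‖φ (integralBasis K i)‖)
          (fun φ _ => Finset.sum_nonneg fun i _ => norm_nonneg _) (Finset.mem_univ φ)
      linarith
  obtain ⟨d, hd⟩ : ∃ d, d = Module.finrank ℚ K := ⟨_, rfl⟩
  refine ⟨(Nat.factorial (d * n) : ℝ) * H ^ (d * n), ?_, ?_⟩
  · have h1 : (1 : ℝ) ≤ Nat.factorial (d * n) := by
      exact_mod_cast Nat.succ_le_of_lt (Nat.factorial_pos _)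
    have h2 : (1 : ℝ) ≤ H ^ (d * n) := one_le_pow₀ hH1
    nlinarith
  intro a θ R m T hT hirr hroot hR hA hB hsiz
  have hmp := minpoly_root n hn a θ hirr hroot
  have hθint : IsIntegral K θ := ⟨polK n a, polK_monic n hn a, hroot⟩
  have hfr : Module.finrank K (IntermediateField.adjoin K {θ}) = n := by
    rw [IntermediateField.adjoin.finrank hθint, hmp, polK_natDegree n hn]
  refine ⟨hfr, ?_⟩
  have : FiniteDimensional K (IntermediateField.adjoin K {θ}) :=
    IntermediateField.adjoin.finiteDimensional hθint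
  have : FiniteDimensional ℚ (IntermediateField.adjoin K {θ}) :=
    FiniteDimensional.trans ℚ K _
  have : NumberField (IntermediateField.adjoin K {θ}) := {}
  refine ⟨inferInstance, ?_⟩
  obtain ⟨g0, hg0θ, hgen⟩ : ∃ g0 : IntermediateField.adjoin K {θ},
      (g0 : AlgebraicClosure K) = θ ∧ g0 = IntermediateField.AdjoinSimple.gen K θ :=
    ⟨IntermediateField.AdjoinSimple.gen K θ, IntermediateField.AdjoinSimple.coe_gen K θ, rfl⟩
  have hg0root : aeval g0 (polK n a) = 0 := by
    have : ((aeval g0 (polK n a) : IntermediateField.adjoin K {θ}) : AlgebraicClosure K) =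
        aeval (g0 : AlgebraicClosure K) (polK n a) :=
      (aeval_algebraMap_apply (AlgebraicClosure K) g0 (polK n a)).symm
    rw [hg0θ, hroot] at this
    exact_mod_cast this
  have hg0int : IsIntegral ℤ g0 := by
    have h1 := integral_root n hn a θ hroot
    rw [← hg0θ] at h1
    exact (isIntegral_algHom_iff ((IntermediateField.adjoin K {θ}).val.restrictScalars ℤ)
      Subtype.val_injective).mp h1
  -- the basis
  let pb := IntermediateField.adjoin.powerBasis hθint
  have hdim : pb.dim = n := by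
    rw [IntermediateField.adjoin.powerBasis_dim, hmp, polK_natDegree n hn]
  obtain ⟨pb', hpb'⟩ : ∃ pb' : Module.Basis (Fin n) K (IntermediateField.adjoin K {θ}),
      ∀ i : Fin n, pb' i = g0 ^ (i : ℕ) := by
    refine ⟨pb.basis.reindex (finCongr hdim), fun i => ?_⟩
    simp only [Module.Basis.reindex_apply, PowerBasis.coe_basis, pb,
      IntermediateField.adjoin.powerBasis_gen, hgen]
    rfl
  obtain ⟨b, hb⟩ : ∃ b : Module.Basis (Module.Free.ChooseBasisIndex ℤ (𝓞 K) × Fin n) ℚ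
      (IntermediateField.adjoin K {θ}), ∀ i, b i =
        algebraMap K (IntermediateField.adjoin K {θ}) (integralBasis K i.1) * g0 ^ (i.2 : ℕ) := by
    refine ⟨(integralBasis K).smulTower pb', fun i => ?_⟩
    rw [Module.Basis.smulTower_apply, hpb', Algebra.smul_def]
  -- the integer
  obtain ⟨g, q, hgm, hgd, h1, h2⟩ := quot hn (pol n a) (pol_monic n hn a) (pol_natDegree n hn a) m
  obtain ⟨c, hc1, hcR, hcR2⟩ := exists_c R hR
  obtain ⟨A, hA'⟩ := hcR2 _ hA
  obtain ⟨B, hB'⟩ := hcR _ hB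
  have hβ := integral_beta (pol n a) g q m h1 h2 c A B hA' hB' g0 hg0int hg0root
  have hrR : ((Ideal.absNorm R : ℕ) : 𝓞 K) ∈ R := Ideal.absNorm_mem R
  obtain ⟨ρ, hρ⟩ := hcR _ hrR
  -- the coordinates
  have hcoord : ∀ z : 𝓞 K, (z : K) = ∑ i, ((RingOfIntegers.basis K).repr z i : K) *
      integralBasis K i := by
    intro z
    rw [← (integralBasis K).sum_repr (z : K)]
    refine Finset.sum_congr rfl fun i _ => ?_
    have h3 : (integralBasis K).repr (z : K) i = (((RingOfIntegers.basis K).repr z i : ℤ) : ℚ) :=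
      integralBasis_repr_apply K z i
    rw [h3, Algebra.smul_def]
    simp
  obtain ⟨ζ, hζ⟩ : ∃ ζ : Fin n → 𝓞 K, ∀ i, ζ i = ρ * g.coeff (i : ℕ) := ⟨_, fun _ => rfl⟩
  have hsum : ∑ i : Module.Free.ChooseBasisIndex ℤ (𝓞 K) × Fin n,
      ((((RingOfIntegers.basis K).repr (ζ i.2) i.1 : ℤ)) :
        IntermediateField.adjoin K {θ}) * b i =
      ((Ideal.absNorm R : ℕ) : IntermediateField.adjoin K {θ}) *
        (algebraMap K (IntermediateField.adjoin K {θ}) c *
          aeval g0 (g.map (algebraMap (𝓞 K) K))) := by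
    rw [Fintype.sum_prod_type_right]
    have h3 : aeval g0 (g.map (algebraMap (𝓞 K) K)) = ∑ i : Fin n,
        algebraMap K (IntermediateField.adjoin K {θ}) ((g.coeff (i : ℕ) : 𝓞 K) : K) *
          g0 ^ (i : ℕ) := by
      rw [aeval_eq_sum_range, hgm.natDegree_map, hgd,
        Fin.sum_univ_eq_sum_range (fun i => algebraMap K (IntermediateField.adjoin K {θ})
          ((g.coeff i : 𝓞 K) : K) * g0 ^ i) n]
      have hnn : n - 1 + 1 = n := by omega
      rw [hnn]
      refine Finset.sum_congr rfl fun i _ => ?_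
      rw [Algebra.smul_def, coeff_map]
    rw [h3, Finset.mul_sum, Finset.mul_sum]
    refine Finset.sum_congr rfl fun i _ => ?_
    have h4 : ((ζ i : 𝓞 K) : K) =
        ((Ideal.absNorm R : ℕ) : K) * (c * ((g.coeff (i : ℕ) : 𝓞 K) : K)) := by
      rw [hζ]
      have h5 : ((ρ * g.coeff (i : ℕ) : 𝓞 K) : K) = (ρ : K) * ((g.coeff (i : ℕ) : 𝓞 K) : K) :=
        map_mul (algebraMap (𝓞 K) K) _ _
      have h6 : (((Ideal.absNorm R : ℕ) : 𝓞 K) : K) = ((Ideal.absNorm R : ℕ) : K) :=
        map_natCast (algebraMap (𝓞 K) K) _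
      rw [h5, hρ, h6]
      ring
    have h7 := congrArg (algebraMap K (IntermediateField.adjoin K {θ}))
      ((hcoord (ζ i)).symm.trans h4)
    rw [map_sum, map_mul _ ((Ideal.absNorm R : ℕ) : K), map_mul _ c, map_natCast] at h7
    have h8 : ∑ j, ((((RingOfIntegers.basis K).repr (ζ i) j : ℤ)) :
        IntermediateField.adjoin K {θ}) * b (j, i) = (∑ j, algebraMap K
          (IntermediateField.adjoin K {θ}) (((RingOfIntegers.basis K).repr
            (ζ i) j : K) * integralBasis K j)) * g0 ^ (i : ℕ) := by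
      rw [Finset.sum_mul]
      refine Finset.sum_congr rfl fun j _ => ?_
      rw [hb, map_mul, map_intCast]
      ring
    rw [h8, h7]
    ring
  have hnd : ∃ i : Module.Free.ChooseBasisIndex ℤ (𝓞 K) × Fin n, ¬ ((Ideal.absNorm R : ℕ) : ℤ) ∣
      (RingOfIntegers.basis K).repr (ζ i.2) i.1 := by
    by_contra hcon
    push Not at hcon
    have h3 : ∀ j, ∃ z : ℤ, (RingOfIntegers.basis K).repr ρ j =
        ((Ideal.absNorm R : ℕ) : ℤ) * z := by
      intro j
      have h4 := hcon (j, ⟨n - 1, by omega⟩)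
      have h5 : g.coeff (n - 1) = 1 := by
        rw [← hgd]
        exact hgm
      have h6 : ζ ⟨n - 1, by omega⟩ = ρ := by rw [hζ, h5, mul_one]
      rw [h6] at h4
      exact h4
    choose z hz using h3
    obtain ⟨w, hw⟩ : ∃ w : 𝓞 K, w = ∑ j, z j • RingOfIntegers.basis K j := ⟨_, rfl⟩
    have h6 : ρ = ((Ideal.absNorm R : ℕ) : 𝓞 K) * w := by
      rw [← (RingOfIntegers.basis K).sum_repr ρ, hw, Finset.mul_sum]
      refine Finset.sum_congr rfl fun j _ => ?_
      rw [hz, zsmul_eq_mul, zsmul_eq_mul]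
      push_cast
      ring
    apply hc1 w
    have h7 : (((Ideal.absNorm R : ℕ) : 𝓞 K) : K) = ((Ideal.absNorm R : ℕ) : K) :=
      map_natCast (algebraMap (𝓞 K) K) _
    have h8 : (ρ : K) = ((Ideal.absNorm R : ℕ) : K) * (w : K) := by
      rw [h6]
      exact (map_mul (algebraMap (𝓞 K) K) _ _).trans (by
        rw [map_natCast])
    rw [h7, h8, mul_comm] at hρ
    have h9 : ((Ideal.absNorm R : ℕ) : K) ≠ 0 := by
      have := hR.ne_zero
      exact_mod_cast this
    exact mul_right_cancel₀ h9 hρ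
  have hbint : ∀ i, IsIntegral ℤ (b i) := by
    intro i
    rw [hb]
    refine IsIntegral.mul ?_ (hg0int.pow _)
    have h3 : IsIntegral ℤ (integralBasis K i.1) := by
      rw [integralBasis_apply]
      exact RingOfIntegers.isIntegral_coe _
    exact h3.map (Algebra.algHom ℤ K _)
  have hle := discr_le_index b hbint (Ideal.absNorm R) hR _ _ hβ hsum hnd
  have hbd := Pool.Agent.D0H15.SF.discr_bound b (fun i => H * T ^ (i.2 : ℕ)) (by
    intro τ i
    rw [hb i, map_mul, map_pow, norm_mul, norm_pow]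
    obtain ⟨φ, hφ⟩ := ext_emb _ τ
    have h3 : ‖τ g0‖ ≤ T := by
      rw [← hφ, hg0θ]
      exact hsiz φ
    have h4 : ‖τ (algebraMap K (IntermediateField.adjoin K {θ}) (integralBasis K i.1))‖ ≤ H :=
      hH (τ.comp (algebraMap K _)) i.1
    exact mul_le_mul h4 (pow_le_pow_left₀ (norm_nonneg _) h3 _) (by positivity) (by linarith))
  have hcardd : Fintype.card (Module.Free.ChooseBasisIndex ℤ (𝓞 K)) = d := by
    rw [← Module.finrank_eq_card_basis (integralBasis K), hd]
  rw [Fintype.card_prod, Fintype.card_fin, hcardd, Fintype.prod_prod_type] at hbd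
  simp only [Finset.prod_mul_distrib, Finset.prod_const, Finset.card_univ, Fintype.card_fin,
    Finset.prod_pow_eq_pow_sum, hcardd] at hbd
  rw [Fin.sum_univ_eq_sum_range (fun i => i) n, Finset.sum_range_id] at hbd
  have h4 : ((Ideal.absNorm R : ℕ) : ℝ) ^ 2 *
      ((|NumberField.discr (IntermediateField.adjoin K {θ})| : ℤ) : ℝ) ≤
      ((|Algebra.discr ℚ b| : ℚ) : ℝ) := by
    have h5 := (Rat.cast_le (K := ℝ)).2 hle
    push_cast at h5 ⊢
    exact h5
  have hrR0 : (0 : ℝ) < ((Ideal.absNorm R : ℕ) : ℝ) := by exact_mod_cast hR.pos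
  rw [div_pow, le_div_iff₀ (by positivity), mul_comm]
  refine (h4.trans hbd).trans (le_of_eq ?_)
  rw [← hd]
  congr 1
  rw [← mul_assoc, ← pow_mul, mul_comm n d, ← pow_mul, mul_comm (n * (n - 1) / 2) d]

end Pool.Agent.D0H65.SFK
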